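import Pool.Agent.X27.Chr.AM

/-!
# Conjugacy class numbers of coprime factorisations up to subpolynomial factors

Let `k(G)` be the number of the conjugacy classes of the finite group `G`. Let `P` be a class of factorisations `G = A B`
of finite groups with `|A|`, `|B|` coprime, closed under direct squares. We show that `k(G) ≤ k(A) k(B)` holds on `P` if
and only if for each `ε > 0` there is `C` such that `k(G) ≤ C |G|^ε k(A) k(B)` on `P`.
-/

set_option autoImplicit false

namespace Pool.Agent.Results.MP_2bb03e_al.SubpolynomialError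

open Pool.Agent.X27.Chr

/-- The number of the conjugacy classes of `G`. -/
noncomputable def kc (G : Type) [Group G] : ℕ := Nat.card (ConjClasses G)

/-- A factorisation `G = A B` of a finite group with `|A|` and `|B|` coprime. -/
structure Fac where
  G : Type
  [grp : Group G]
  [fin : Finite G]
  A : Subgroup G
  B : Subgroup G
  cop : Nat.Coprime (Nat.card A) (Nat.card B)
  prod : ∀ g : G, ∃ a ∈ A, ∃ b ∈ B, g = a * b

attribute [instance] Fac.grp Fac.fin

/-- The direct square. -/
def Fac.sq (x : Fac) : Fac where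
  G := x.G × x.G
  A := x.A.prod x.A
  B := x.B.prod x.B
  cop := by
    rw [Nat.card_congr (Subgroup.prodEquiv x.A x.A).toEquiv,
      Nat.card_congr (Subgroup.prodEquiv x.B x.B).toEquiv, Nat.card_prod, Nat.card_prod]
    exact Nat.Coprime.mul_left (Nat.Coprime.mul_right x.cop x.cop)
      (Nat.Coprime.mul_right x.cop x.cop)
  prod := by
    intro g
    obtain ⟨a, ha, b, hb, h⟩ := x.prod g.1
    obtain ⟨a', ha', b', hb', h'⟩ := x.prod g.2
    exact ⟨(a, a'), ⟨ha, ha'⟩, (b, b'), ⟨hb, hb'⟩, Prod.ext h h'⟩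

theorem kc_prod (G : Type) [Group G] [Finite G] : kc (G × G) = kc G ^ 2 := by
  have h1 := commProb_prod (M := G) G
  rw [commProb_def', commProb_def', Nat.card_prod, div_mul_div_comm] at h1
  have h2 : (Nat.card G : ℚ) ≠ 0 := by exact_mod_cast Nat.card_pos.ne'
  push_cast at h1
  have h3 := (div_left_inj' (mul_ne_zero h2 h2)).1 h1
  unfold kc
  rw [pow_two]
  exact_mod_cast h3

theorem kc_equiv {G H : Type} [Group G] [Finite G] [Group H] [Finite H] (e : G ≃* H) :
    kc G = kc H := by
  have h1 : commProb G = commProb H := by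
    unfold commProb
    rw [Nat.card_congr e.toEquiv]
    congr 2
    refine Nat.card_congr ((e.toEquiv.prodCongr e.toEquiv).subtypeEquiv fun x => ?_)
    change x.1 * x.2 = x.2 * x.1 ↔ e x.1 * e x.2 = e x.2 * e x.1
    rw [← map_mul, ← map_mul, e.injective.eq_iff]
  rw [commProb_def', commProb_def', Nat.card_congr e.toEquiv] at h1
  have h2 : (Nat.card H : ℚ) ≠ 0 := by exact_mod_cast Nat.card_pos.ne'
  have h3 := (div_left_inj' h2).1 h1
  unfold kc
  exact_mod_cast h3

theorem kc_sub {G : Type} [Group G] [Finite G] (A : Subgroup G) :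
    kc (A.prod A) = kc A ^ 2 := by
  rw [← kc_prod]
  exact kc_equiv (Subgroup.prodEquiv A A)

theorem powers (P : Fac → Prop) (hP : ∀ x, P x → P x.sq) (x : Fac) (hx : P x) (n : ℕ) :
    ∃ y : Fac, P y ∧ Nat.card y.G = Nat.card x.G ^ 2 ^ n ∧ kc y.G = kc x.G ^ 2 ^ n ∧
      kc y.A * kc y.B = (kc x.A * kc x.B) ^ 2 ^ n := by
  induction n with
  | zero => exact ⟨x, hx, by simp, by simp, by simp⟩
  | succ n ih =>
    obtain ⟨y, h1, h2, h3, h4⟩ := ih
    refine ⟨y.sq, hP y h1, ?_, ?_, ?_⟩
    · change Nat.card (y.G × y.G) = _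
      rw [Nat.card_prod, h2, ← pow_two, pow_succ 2 n, pow_mul]
    · change kc (y.G × y.G) = _
      rw [kc_prod, h3, pow_succ 2 n, pow_mul]
    · change kc (y.A.prod y.A) * kc (y.B.prod y.B) = _
      rw [kc_sub, kc_sub, ← mul_pow, h4, pow_succ 2 n, pow_mul]

/-- **The inequality up to factors `|G|^o(1)` implies the inequality.** -/
theorem result (P : Fac → Prop) (hP : ∀ x, P x → P x.sq) :
    (∀ x, P x → kc x.G ≤ kc x.A * kc x.B) ↔ ∀ ε : ℝ, 0 < ε → ∃ C : ℝ, ∀ x, P x →
      (kc x.G : ℝ) ≤ C * (Nat.card x.G : ℝ) ^ ε * ((kc x.A : ℝ) * kc x.B) := by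
  constructor
  · intro h ε hε
    refine ⟨1, fun x hx => ?_⟩
    have h2 : (1 : ℝ) ≤ (Nat.card x.G : ℝ) ^ ε :=
      Real.one_le_rpow (by exact_mod_cast Nat.card_pos) hε.le
    have h3 : (kc x.G : ℝ) ≤ (kc x.A : ℝ) * kc x.B := by exact_mod_cast h x hx
    have h4 : (0 : ℝ) ≤ (kc x.A : ℝ) * kc x.B := by positivity
    nlinarith
  · intro h x hx
    refine amplify (g := Nat.card x.G) Nat.card_pos fun ε hε => ?_
    obtain ⟨C, hC⟩ := h ε hε
    refine ⟨C, fun n => ?_⟩
    obtain ⟨y, h1, h2, h3, h4⟩ := powers P hP x hx n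
    rw [← h2, ← h3, ← h4]
    have h5 := hC y h1
    push_cast
    exact h5

end Pool.Agent.Results.MP_2bb03e_al.SubpolynomialError
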